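import Pool.Agent.Helper18.PS.St

/-!
# Project PS (MP_4afa08_nt), module FIN: the final estimate
-/

set_option autoImplicit false

noncomputable section

namespace Pool.Agent.Helper96.PS

open Finset
open Nat (totient)
open Pool.Agent.Helper18.PS
open Pool.Agent.Helper30.LQ (StSMT)
open Pool.Agent.Helper94.DN (StRAN)

private theorem memf {S : Finset ℕ} {P : ℕ → Prop} (i : DecidablePred P) {n : ℕ} :
    n ∈ @Finset.filter ℕ P i S ↔ n ∈ S ∧ P n := Finset.mem_filter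

private theorem card5 (S A B C D E : Finset ℕ)
    (h : ∀ x ∈ S, x ∈ A ∨ x ∈ B ∨ x ∈ C ∨ x ∈ D ∨ x ∈ E) :
    (S.card : ℝ) ≤ (A.card : ℝ) + B.card + C.card + D.card + E.card := by
  have h1 : S ⊆ A ∪ B ∪ C ∪ D ∪ E := by
    intro x hx
    simp only [Finset.mem_union]
    have := h x hx
    tauto
  have h2 := (Finset.card_le_card h1).trans (Finset.card_union_le _ _)
  have h3 := Finset.card_union_le (A ∪ B ∪ C) D
  have h4 := Finset.card_union_le (A ∪ B) C
  have h5 := Finset.card_union_le A B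
  have h6 : S.card ≤ A.card + B.card + C.card + D.card + E.card := by omega
  exact_mod_cast h6

private theorem exp25 : (2 / 3 : ℝ) ≤ Real.exp (-(2 / 5)) := by
  have h1 : Real.exp (2 / 5) ^ 5 ≤ (3 / 2 : ℝ) ^ 5 := by
    rw [← Real.exp_nat_mul]
    have e : ((5 : ℕ) : ℝ) * (2 / 5) = 1 + 1 := by norm_num
    rw [e, Real.exp_add]
    have h2 : Real.exp 1 ≤ 2.75 := by
      have := Real.exp_one_lt_d9
      linarith
    have h3 := Real.exp_pos 1
    calc Real.exp 1 * Real.exp 1 ≤ 2.75 * 2.75 := mul_le_mul h2 h2 h3.le (by norm_num)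
      _ ≤ (3 / 2 : ℝ) ^ 5 := by norm_num
  have h4 : Real.exp (2 / 5) ≤ 3 / 2 := le_of_pow_le_pow_left₀ (by norm_num) (by norm_num) h1
  rw [Real.exp_neg]
  have h5 := Real.exp_pos (2 / 5)
  rw [show (2 / 3 : ℝ) = (3 / 2)⁻¹ by norm_num]
  exact inv_anti₀ h5 h4

/-- The analytic inequality for large `t`. -/
private theorem large (C : ℝ) (hC : 0 < C) (Y : ℝ) : ∃ t₀ : ℝ, ∀ t : ℝ, t₀ ≤ t →
    1 ≤ t ∧ Y ≤ Real.exp t ∧
    14 * C * t ^ 2 * Real.exp (-(t / 14)) + Real.exp (-t) + 8 * Real.exp (-(2 * t / 5)) +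
      8 * (1 + t ^ 3) ^ 2 * Real.exp (-t) + 4 * (3 + t ^ 3) ^ 2 * Real.exp (-t) ≤
      Real.exp (-(1 / 20 * t)) := by
  have l1 := (isLittleO_pow_exp_pos_mul_atTop (k := 2) (b := 3 / 140) (by norm_num)).def
    (c := 1 / (70 * C)) (by positivity)
  have l2 := (isLittleO_pow_exp_pos_mul_atTop (k := 6) (b := 19 / 20) (by norm_num)).def
    (c := 1 / 1000) (by norm_num)
  have l3 := (isLittleO_pow_exp_pos_mul_atTop (k := 1) (b := 7 / 20) (by norm_num)).def
    (c := 1 / 40) (by norm_num)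
  have l4 := Real.tendsto_exp_atTop.eventually_ge_atTop Y
  obtain ⟨t₀, ht₀⟩ := Filter.eventually_atTop.1 (l1.and (l2.and (l3.and (l4.and
    (Filter.eventually_ge_atTop (1 : ℝ))))))
  refine ⟨t₀, fun t ht => ?_⟩
  obtain ⟨a1, a2, a3, a4, a5⟩ := ht₀ t ht
  have hE : ∀ x : ℝ, 0 < Real.exp x := Real.exp_pos
  rw [Real.norm_of_nonneg (by positivity), Real.norm_of_nonneg (hE _).le] at a1 a2 a3
  refine ⟨a5, a4, ?_⟩
  have t1 : 1 ≤ t ^ 3 := one_le_pow₀ a5
  have t2 : t ≤ t ^ 6 := by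
    calc t = t ^ 1 := (pow_one t).symm
      _ ≤ t ^ 6 := pow_le_pow_right₀ a5 (by norm_num)
  -- term 1
  have b1 : 14 * C * t ^ 2 * Real.exp (-(t / 14)) ≤ 1 / 5 * Real.exp (-(1 / 20 * t)) := by
    have e : Real.exp (3 / 140 * t) * Real.exp (-(t / 14)) = Real.exp (-(1 / 20 * t)) := by
      rw [← Real.exp_add]; congr 1; ring
    have h1 : 14 * C * t ^ 2 ≤ 1 / 5 * Real.exp (3 / 140 * t) := by
      have h2 : 14 * C * t ^ 2 ≤ 14 * C * (1 / (70 * C) * Real.exp (3 / 140 * t)) :=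
        mul_le_mul_of_nonneg_left a1 (by positivity)
      have h3 : 14 * C * (1 / (70 * C) * Real.exp (3 / 140 * t)) =
          1 / 5 * Real.exp (3 / 140 * t) := by
        field_simp
        ring
      rw [h3] at h2
      exact h2
    calc 14 * C * t ^ 2 * Real.exp (-(t / 14))
        ≤ 1 / 5 * Real.exp (3 / 140 * t) * Real.exp (-(t / 14)) :=
          mul_le_mul_of_nonneg_right h1 (hE _).le
      _ = 1 / 5 * Real.exp (-(1 / 20 * t)) := by rw [mul_assoc, e]
  have e2 : Real.exp (19 / 20 * t) * Real.exp (-t) = Real.exp (-(1 / 20 * t)) := by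
    rw [← Real.exp_add]; congr 1; ring
  have b2 : Real.exp (-t) ≤ 1 / 1000 * Real.exp (-(1 / 20 * t)) := by
    have h1 : 1 ≤ 1 / 1000 * Real.exp (19 / 20 * t) := by linarith
    calc Real.exp (-t) = 1 * Real.exp (-t) := (one_mul _).symm
      _ ≤ 1 / 1000 * Real.exp (19 / 20 * t) * Real.exp (-t) :=
          mul_le_mul_of_nonneg_right h1 (hE _).le
      _ = 1 / 1000 * Real.exp (-(1 / 20 * t)) := by rw [mul_assoc, e2]
  have b3 : 8 * Real.exp (-(2 * t / 5)) ≤ 1 / 5 * Real.exp (-(1 / 20 * t)) := by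
    have e : Real.exp (7 / 20 * t) * Real.exp (-(2 * t / 5)) = Real.exp (-(1 / 20 * t)) := by
      rw [← Real.exp_add]; congr 1; ring
    have h1 : 8 ≤ 1 / 5 * Real.exp (7 / 20 * t) := by
      rw [pow_one] at a3
      linarith
    calc 8 * Real.exp (-(2 * t / 5)) ≤ 1 / 5 * Real.exp (7 / 20 * t) * Real.exp (-(2 * t / 5)) :=
          mul_le_mul_of_nonneg_right h1 (hE _).le
      _ = 1 / 5 * Real.exp (-(1 / 20 * t)) := by rw [mul_assoc, e]
  have b4 : 8 * (1 + t ^ 3) ^ 2 * Real.exp (-t) + 4 * (3 + t ^ 3) ^ 2 * Real.exp (-t) ≤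
      1 / 5 * Real.exp (-(1 / 20 * t)) := by
    have t3 : t ^ 6 = t ^ 3 * t ^ 3 := by ring
    have h1 : 8 * (1 + t ^ 3) ^ 2 + 4 * (3 + t ^ 3) ^ 2 ≤ 96 * t ^ 6 := by
      rw [t3]
      generalize t ^ 3 = u at t1
      have q : u ≤ u * u := by
        have := mul_le_mul_of_nonneg_left t1 (by linarith : (0 : ℝ) ≤ u)
        linarith
      have e : 8 * (1 + u) ^ 2 + 4 * (3 + u) ^ 2 = 44 + 40 * u + 12 * (u * u) := by ring
      rw [e]
      linarith
    have h2 : 96 * t ^ 6 ≤ 1 / 5 * Real.exp (19 / 20 * t) := by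
      have := hE (19 / 20 * t)
      linarith
    calc 8 * (1 + t ^ 3) ^ 2 * Real.exp (-t) + 4 * (3 + t ^ 3) ^ 2 * Real.exp (-t)
        = (8 * (1 + t ^ 3) ^ 2 + 4 * (3 + t ^ 3) ^ 2) * Real.exp (-t) := by ring
      _ ≤ 1 / 5 * Real.exp (19 / 20 * t) * Real.exp (-t) :=
          mul_le_mul_of_nonneg_right (h1.trans h2) (hE _).le
      _ = 1 / 5 * Real.exp (-(1 / 20 * t)) := by rw [mul_assoc, e2]
  have h5 := hE (-(1 / 20 * t))
  linarith

theorem hFIN (hC : StCLS) (h1 : StC1) (h2 : StC2) (h3 : StC3) (h4 : StC4) (h5 : StC5) : StFIN := by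
  obtain ⟨C, hC0, y₀, hy₀⟩ := h1
  obtain ⟨t₀, ht₀⟩ := large C hC0 y₀
  have lim : Filter.Tendsto (fun N : ℕ => Real.log N ^ (1 / 3 : ℝ)) Filter.atTop Filter.atTop :=
    (tendsto_rpow_atTop (by norm_num)).comp (Real.tendsto_log_atTop.comp tendsto_natCast_atTop_atTop)
  obtain ⟨N₀, hN₀⟩ := Filter.eventually_atTop.1 (lim.eventually_ge_atTop t₀)
  refine ⟨1 / 20, by norm_num, max N₀ 1, fun N hN => ?_⟩
  have hN1 : 1 ≤ N := (le_max_right _ _).trans hN
  have hNt := hN₀ N ((le_max_left _ _).trans hN)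
  have hNR : (1 : ℝ) ≤ N := by exact_mod_cast hN1
  have hN0 : (0 : ℝ) < N := by linarith
  set t : ℝ := Real.log N ^ (1 / 3 : ℝ) with ht
  obtain ⟨t1, tY, hfin⟩ := ht₀ t hNt
  have hlog0 : 0 ≤ Real.log N := Real.log_nonneg hNR
  have hlog : Real.log N = t ^ 3 := by
    rw [ht, ← Real.rpow_natCast, ← Real.rpow_mul hlog0]
    norm_num
  have hE : ∀ x : ℝ, 0 < Real.exp x := Real.exp_pos
  have he2 : 2 ≤ Real.exp t := by
    have := Real.add_one_le_exp t
    linarith
  set z : ℕ := ⌊Real.exp t⌋₊ with hz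
  have z1 : (z : ℝ) ≤ Real.exp t := Nat.floor_le (hE t).le
  have z2 : Real.exp t < (z : ℝ) + 1 := Nat.lt_floor_add_one _
  have z3 : 2 ≤ z := Nat.le_floor (by exact_mod_cast he2)
  have z3R : (2 : ℝ) ≤ z := by exact_mod_cast z3
  have z4 : Real.exp t / 2 ≤ z := by linarith
  set L : ℕ := ⌈6 * t⌉₊ with hL
  have L1 : 6 * t ≤ L := Nat.le_ceil _
  have L2 : (L : ℝ) < 6 * t + 1 := Nat.ceil_lt_add_one (by linarith)
  have L0 : L ≠ 0 := by
    intro h
    rw [h] at L1
    norm_num at L1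
    linarith
  set y : ℕ := (z + 1) ^ L with hy
  have y1 : z + 1 ≤ y := by
    calc z + 1 = (z + 1) ^ 1 := (pow_one _).symm
      _ ≤ (z + 1) ^ L := Nat.pow_le_pow_right (by omega) (by omega)
  have y1R : (z : ℝ) + 1 ≤ y := by exact_mod_cast y1
  have y2 : y₀ ≤ y := by
    have : (y₀ : ℝ) ≤ y := by linarith
    exact_mod_cast this
  have b1 := hy₀ y N y2 hN1
  have b2 := h2 y N (by omega)
  have b3 := h3 y z L N (by omega) le_rfl
  have b4 := h4 z N (by omega) hN1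
  have b5 := h5 z N (by omega) hN1
  have hz1 : (z : ℝ) + 1 ≤ 2 * Real.exp t := by linarith
  -- the first bound
  have c1 : C * N * Real.log y * Real.exp (-(Real.log N / Real.log y)) ≤
      N * (14 * C * t ^ 2 * Real.exp (-(t / 14))) := by
    have g1 : Real.log y = L * Real.log ((z : ℝ) + 1) := by
      rw [hy]; push_cast; rw [Real.log_pow]
    have g2 : Real.log ((z : ℝ) + 1) ≤ t + 1 := by
      rw [← Real.log_exp (t + 1)]
      refine Real.log_le_log (by linarith) ?_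
      have : Real.exp (t + 1) = Real.exp t * Real.exp 1 := Real.exp_add _ _
      have h6 : (2 : ℝ) ≤ Real.exp 1 := by
        have := Real.add_one_le_exp (1 : ℝ)
        linarith
      rw [this]
      refine hz1.trans ?_
      rw [mul_comm]
      exact mul_le_mul_of_nonneg_left h6 (hE t).le
    have g3 : 0 ≤ Real.log ((z : ℝ) + 1) := Real.log_nonneg (by linarith)
    have g4 : Real.log y ≤ 14 * t ^ 2 := by
      rw [g1]
      calc (L : ℝ) * Real.log ((z : ℝ) + 1) ≤ (6 * t + 1) * (t + 1) :=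
            mul_le_mul L2.le g2 g3 (by linarith)
        _ ≤ 14 * t ^ 2 := by
          have q : t ≤ t * t := by
            have := mul_le_mul_of_nonneg_left t1 (by linarith : (0 : ℝ) ≤ t)
            linarith
          have e : (6 * t + 1) * (t + 1) = 6 * (t * t) + 7 * t + 1 := by ring
          rw [e, pow_two]
          linarith
    have g5 : 0 < Real.log y := Real.log_pos (by linarith)
    have g6 : t / 14 ≤ Real.log N / Real.log y := by
      rw [hlog, le_div_iff₀ g5]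
      calc t / 14 * Real.log y ≤ t / 14 * (14 * t ^ 2) :=
            mul_le_mul_of_nonneg_left g4 (by linarith)
        _ = t ^ 3 := by ring
    have g7 : Real.exp (-(Real.log N / Real.log y)) ≤ Real.exp (-(t / 14)) :=
      Real.exp_le_exp.2 (by linarith)
    calc C * N * Real.log y * Real.exp (-(Real.log N / Real.log y))
        ≤ C * N * (14 * t ^ 2) * Real.exp (-(t / 14)) := by
          refine mul_le_mul (mul_le_mul_of_nonneg_left g4 (by positivity)) g7 (hE _).le (by positivity)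
      _ = N * (14 * C * t ^ 2 * Real.exp (-(t / 14))) := by ring
  have c2 : (N : ℝ) / y ≤ N * Real.exp (-t) := by
    rw [Real.exp_neg, ← div_eq_mul_inv]
    exact div_le_div_of_nonneg_left hN0.le (hE t) (by linarith)
  have c3 : 2 * N * (((z : ℝ) + 1) ^ 2 * (2 / 3) ^ L) ≤ N * (8 * Real.exp (-(2 * t / 5))) := by
    have g1 : ((2 : ℝ) / 3) ^ L ≤ Real.exp (-(12 / 5 * t)) := by
      calc ((2 : ℝ) / 3) ^ L ≤ Real.exp (-(2 / 5)) ^ L := pow_le_pow_left₀ (by norm_num) exp25 L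
        _ = Real.exp (L * (-(2 / 5))) := (Real.exp_nat_mul _ _).symm
        _ ≤ Real.exp (-(12 / 5 * t)) := Real.exp_le_exp.2 (by linarith)
    have g2 : ((z : ℝ) + 1) ^ 2 ≤ 4 * (Real.exp t * Real.exp t) := by
      calc ((z : ℝ) + 1) ^ 2 ≤ (2 * Real.exp t) ^ 2 := pow_le_pow_left₀ (by linarith) hz1 2
        _ = 4 * (Real.exp t * Real.exp t) := by ring
    have g3 : Real.exp t * Real.exp t * Real.exp (-(12 / 5 * t)) = Real.exp (-(2 * t / 5)) := by
      rw [← Real.exp_add, ← Real.exp_add]; congr 1; ring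
    calc 2 * N * (((z : ℝ) + 1) ^ 2 * (2 / 3) ^ L)
        ≤ 2 * N * (4 * (Real.exp t * Real.exp t) * Real.exp (-(12 / 5 * t))) := by
          refine mul_le_mul_of_nonneg_left ?_ (by positivity)
          exact mul_le_mul g2 g1 (by positivity) (by positivity)
      _ = N * (8 * (Real.exp t * Real.exp t * Real.exp (-(12 / 5 * t)))) := by ring
      _ = N * (8 * Real.exp (-(2 * t / 5))) := by rw [g3]
  have hzi : 1 / (z : ℝ) ≤ 2 * Real.exp (-t) := by
    rw [Real.exp_neg, div_le_iff₀ (by linarith)]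
    have h6 : Real.exp t * (Real.exp t)⁻¹ = 1 := mul_inv_cancel₀ (hE t).ne'
    have h7 : 0 < (Real.exp t)⁻¹ := inv_pos.2 (hE t)
    calc (1 : ℝ) = 2 * (Real.exp t)⁻¹ * (Real.exp t / 2) := by
          have e : 2 * (Real.exp t)⁻¹ * (Real.exp t / 2) = Real.exp t * (Real.exp t)⁻¹ := by ring
          rw [e, h6]
      _ ≤ 2 * (Real.exp t)⁻¹ * z := mul_le_mul_of_nonneg_left z4 (by positivity)
  have c4 : 4 * N * (1 + Real.log N) ^ 2 / z ≤ N * (8 * (1 + t ^ 3) ^ 2 * Real.exp (-t)) := by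
    rw [hlog]
    calc 4 * (N : ℝ) * (1 + t ^ 3) ^ 2 / z = 4 * N * (1 + t ^ 3) ^ 2 * (1 / z) := by ring
      _ ≤ 4 * N * (1 + t ^ 3) ^ 2 * (2 * Real.exp (-t)) :=
          mul_le_mul_of_nonneg_left hzi (by positivity)
      _ = N * (8 * (1 + t ^ 3) ^ 2 * Real.exp (-t)) := by ring
  have c5 : 2 * N / z * (1 + Real.log (2 * N)) ^ 2 ≤ N * (4 * (3 + t ^ 3) ^ 2 * Real.exp (-t)) := by
    have g1 : Real.log (2 * N) = Real.log 2 + t ^ 3 := by
      rw [Real.log_mul (by norm_num) hN0.ne', hlog]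
    have g2 : Real.log 2 ≤ 1 := by
      have := Real.log_two_lt_d9
      linarith
    have g3 : 0 ≤ Real.log 2 := Real.log_nonneg (by norm_num)
    have g4 : 0 ≤ t ^ 3 := by positivity
    have g5 : (1 + Real.log (2 * N)) ^ 2 ≤ (3 + t ^ 3) ^ 2 := by
      rw [g1]
      exact pow_le_pow_left₀ (by linarith) (by linarith) 2
    calc 2 * (N : ℝ) / z * (1 + Real.log (2 * N)) ^ 2
        = 2 * N * (1 / z) * (1 + Real.log (2 * N)) ^ 2 := by ring
      _ ≤ 2 * N * (2 * Real.exp (-t)) * (3 + t ^ 3) ^ 2 := by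
          refine mul_le_mul (mul_le_mul_of_nonneg_left hzi (by positivity)) g5 (by positivity)
            (by positivity)
      _ = N * (4 * (3 + t ^ 3) ^ 2 * Real.exp (-t)) := by ring
  refine le_trans (card5 _ _ _ _ _ _ ?_) (le_trans (add_le_add (add_le_add (add_le_add
    (add_le_add (b1.trans c1) (b2.trans c2)) (b3.trans c3)) (b4.trans c4)) (b5.trans c5)) ?_)
  · intro n hn
    obtain ⟨hn1, hs, hp⟩ := (memf _).1 hn
    rcases hC y z n z3 (Finset.mem_Icc.1 hn1).1 hs with h | h | h | h | h | h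
    · exact absurd h hp
    · exact Or.inl ((memf _).2 ⟨hn1, h⟩)
    · exact Or.inr (Or.inl ((memf _).2 ⟨hn1, h⟩))
    · exact Or.inr (Or.inr (Or.inl ((memf _).2 ⟨hn1, h⟩)))
    · exact Or.inr (Or.inr (Or.inr (Or.inl ((memf _).2 ⟨hn1, h⟩))))
    · exact Or.inr (Or.inr (Or.inr (Or.inr ((memf _).2 ⟨hn1, h⟩))))
  · have h6 := mul_le_mul_of_nonneg_left hfin hN0.le
    linarith

end Pool.Agent.Helper96.PS
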